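import Mathlib
import Pool.Agent.Helper4.Tensor3Basic

set_option autoImplicit false

namespace Pool.Agent.Results.MP_176834_co.ConditionBFails

universe u

open Pool.Agent.Helper4

/-- The asymptotic spectrum `Δ(R)`: the maps `f : R → ℝ≥0` which are monotone under restriction and
semiring homomorphisms, i.e. additive under direct sum, multiplicative under the Kronecker product
and with `f ⟨0⟩ = 0` and `f ⟨1⟩ = 1`. -/
def spectrum (F : Type u) [Field F] : Set (Tensor3 F → ℝ) :=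
  {f | (∀ T, 0 ≤ f T) ∧ (∀ S T, Restricts S T → f S ≤ f T) ∧
    (∀ S T, f (directSum S T) = f S + f T) ∧ (∀ S T, f (kronecker S T) = f S * f T) ∧
    f (unit F 0) = 0 ∧ f (unit F 1) = 1}

/-- Condition (b) of the problem: there are `c_q ∈ R` for rationals `q ≥ 2`, an element `b ∈ R` and
reals `1 < s < t` such that `c_q ≤ c_r` whenever `q ≤ r`, and for every `l ∈ [s,t]` some
`f ∈ Δ(R)` has `f(c_q) = q` for all `q` and `f(b) = l`. -/
def ConditionB (F : Type u) [Field F] : Prop :=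
  ∃ (c : {q : ℚ // 2 ≤ q} → Tensor3 F) (b : Tensor3 F) (s t : ℝ), 1 < s ∧ s < t ∧
    (∀ q r, q ≤ r → Restricts (c q) (c r)) ∧
    ∀ l ∈ Set.Icc s t, ∃ f ∈ spectrum F, (∀ q, f (c q) = ((q : ℚ) : ℝ)) ∧ f b = l

/-- Q1, negative answer: for every field `F`, condition (b) fails for the semiring of 3-tensors
over `F` with the restriction preorder. -/
theorem result (F : Type u) [Field F] : ¬ ConditionB F := by
  rintro ⟨c, b, s, t, hs, hst, hc, hf⟩
  obtain ⟨f, ⟨-, hmono, -⟩, hfc, -⟩ := hf s ⟨le_refl _, hst.le⟩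
  have hq : ∀ n : ℕ, (2 : ℚ) ≤ 2 + 1 / ((n : ℚ) + 1) := fun n => by
    have : (0 : ℚ) ≤ 1 / ((n : ℚ) + 1) := by positivity
    linarith
  have : IsWellFounded (Tensor3 F) (fun S T : Tensor3 F => Restricts S T ∧ ¬ Restricts T S) :=
    ⟨restricts_wf (F := F)⟩
  obtain ⟨n, hn⟩ := WellFounded.not_rel_apply_succ
    (r := fun S T : Tensor3 F => Restricts S T ∧ ¬ Restricts T S)
    (fun n : ℕ => c ⟨2 + 1 / ((n : ℚ) + 1), hq n⟩)
  have hlt : (2 : ℚ) + 1 / (((n + 1 : ℕ) : ℚ) + 1) < 2 + 1 / ((n : ℚ) + 1) := by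
    have : (1 : ℚ) / (((n + 1 : ℕ) : ℚ) + 1) < 1 / ((n : ℚ) + 1) := by
      apply one_div_lt_one_div_of_lt
      · positivity
      · push_cast
        linarith
    linarith
  refine hn ⟨hc _ _ hlt.le, fun hcon => ?_⟩
  have h1 := hmono _ _ hcon
  rw [hfc, hfc] at h1
  have h2 := Rat.cast_le.mp h1
  exact absurd h2 (not_le.mpr hlt)

end Pool.Agent.Results.MP_176834_co.ConditionBFails
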