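import Mathlib
import Pool.Agent.Helper4.Tensor3Basic

set_option autoImplicit false

namespace Pool.Agent.Results.MP_176834_co.RestrictionNotUniversal

universe u

open Pool.Agent.Helper4

/-- Q2, negative answer: for every field `F`, the restriction preorder on 3-tensors over `F` is not
countably universal. -/
theorem result (F : Type u) [Field F] :
    ¬ CountablyUniversal (fun S T : Tensor3 F => Restricts S T) :=
  not_countablyUniversal_of_wf _ restricts_wf

end Pool.Agent.Results.MP_176834_co.RestrictionNotUniversal
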